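import Mathlib

/-!
# The underlying directed graph does not determine a Young graph

The Young graphs of `(761, 401)` and `(846, 265)` both have ten nodes and isomorphic underlying
directed graphs, but the first one has three even pivot nodes (`[298,298]`, `[148,148]`, `[0,0]`) and
the second one only one (`[0,0]`).
-/

set_option autoImplicit false

namespace Pool.Agent.Results.MP_5fcb94_co.SameDigraphDifferentPivots

/-- the nodes: the starting node `[[0,0]]` and the ordinary nodes `[r', r]` -/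
inductive Node
  | start : Node
  | ord : ℕ → ℕ → Node
deriving DecidableEq

/-- the first entry `r'` (`0` for the starting node) -/
def Node.l : Node → ℕ
  | .start => 0
  | .ord a _ => a

/-- the second entry `r` (`0` for the starting node) -/
def Node.r : Node → ℕ
  | .start => 0
  | .ord _ b => b

/-- there is an edge `u → v` labelled `(b, a)` -/
def Edge (g k : ℕ) (u v : Node) (b a : ℕ) : Prop :=
  a < g ∧ b < g ∧ (u = .start → 1 ≤ a ∧ 1 ≤ b) ∧ k * a + u.r ≡ b [MOD g] ∧
    0 ≤ (a : ℤ) + u.l * g - k * b ∧ (a : ℤ) + u.l * g - k * b < k ∧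
    ∃ t s : ℕ, v = .ord t s ∧ (s : ℤ) * g = k * a + u.r - b ∧ (t : ℤ) = a + u.l * g - k * b

/-- there is an edge `u → v` -/
def Step (g k : ℕ) (u v : Node) : Prop := ∃ b a : ℕ, Edge g k u v b a

/-- `u` is a node of `H(g, k)`: it is reachable from the starting node -/
def Reach (g k : ℕ) (u : Node) : Prop := Relation.ReflTransGen (Step g k) .start u

/-- even pivot nodes: the ordinary nodes `[r, r]` -/
def EvenPivot (u : Node) : Prop := ∃ r : ℕ, u = .ord r r

/-- odd pivot nodes: an ordinary node `[r, r]` carrying a loop, or an ordinary node `[r', r]`,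
`r' ≠ r`, with an edge to `[r, r']` -/
def OddPivot (g k : ℕ) (u : Node) : Prop :=
  (∃ r : ℕ, u = .ord r r ∧ Step g k u u) ∨
    ∃ r' r : ℕ, r' ≠ r ∧ u = .ord r' r ∧ Step g k u (.ord r r')

/-- pivot nodes -/
def Pivot (g k : ℕ) (u : Node) : Prop := EvenPivot u ∨ OddPivot g k u

/-- the `(g, k)` Young graph exists: `H(g, k)` contains a pivot node other than `[0,0]` -/
def YoungExists (g k : ℕ) : Prop := ∃ u, Reach g k u ∧ Pivot g k u ∧ u ≠ .ord 0 0

/-- the nodes of the Young graph: the nodes of `H(g, k)` from which a pivot node is reachable -/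
def YoungNode (g k : ℕ) : Type :=
  {u : Node // Reach g k u ∧ ∃ p, Pivot g k p ∧ Relation.ReflTransGen (Step g k) u p}

/-- `e` is an isomorphism of the underlying directed graphs -/
def IsDigraphIso {g k g' k' : ℕ} (e : YoungNode g k ≃ YoungNode g' k') : Prop :=
  ∀ u v, Step g k u.1 v.1 ↔ Step g' k' (e u).1 (e v).1

/-- `e` maps the even pivot nodes onto the even ones and the odd pivot nodes onto the odd ones -/
def RespectsPivots {g k g' k' : ℕ} (e : YoungNode g k ≃ YoungNode g' k') : Prop :=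
  (∀ u, EvenPivot u.1 ↔ EvenPivot (e u).1) ∧ ∀ u, OddPivot g k u.1 ↔ OddPivot g' k' (e u).1

/-- both Young graphs exist, their underlying directed graphs are isomorphic, and they are not
isomorphic as Young graphs -/
def OnlyDigraphsIsomorphic (g k g' k' : ℕ) : Prop :=
  YoungExists g k ∧ YoungExists g' k' ∧
    (∃ e : YoungNode g k ≃ YoungNode g' k', IsDigraphIso e) ∧
    ¬ ∃ e : YoungNode g k ≃ YoungNode g' k', IsDigraphIso e ∧ RespectsPivots e

/-! ### Computation of the edges -/

/-- the targets of the edges leaving `u` -/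
def outs (g k : ℕ) (u : Node) : List Node :=
  (List.range g).filterMap fun a =>
    if k * ((k * a + u.r) % g) ≤ a + u.l * g ∧ a + u.l * g < k + k * ((k * a + u.r) % g) ∧
        (u = .start → 1 ≤ a ∧ 1 ≤ (k * a + u.r) % g) then
      some (.ord (a + u.l * g - k * ((k * a + u.r) % g)) ((k * a + u.r) / g)) else none

lemma step_iff (g k : ℕ) (hg : 0 < g) (u v : Node) : Step g k u v ↔ v ∈ outs g k u := by
  unfold outs
  rw [List.mem_filterMap]
  constructor
  · rintro ⟨b, a, ha, hb, hs, hmod, h0, h1, t, s, rfl, hs2, ht⟩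
    refine ⟨a, List.mem_range.2 ha, ?_⟩
    have e1 : (k * a + u.r) % g = b := by
      have := hmod
      unfold Nat.ModEq at this
      rw [this, Nat.mod_eq_of_lt hb]
    have e2 : (k * a + u.r) / g = s := by
      have h3 : k * a + u.r = b + g * s := by
        zify
        linarith [mul_comm (g : ℤ) s]
      rw [h3, Nat.add_mul_div_left _ _ hg, Nat.div_eq_of_lt hb, zero_add]
    have h4 : k * b ≤ a + u.l * g := by
      zify
      linarith
    have h5 : a + u.l * g < k + k * b := by
      zify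
      linarith
    rw [e1, e2, if_pos ⟨h4, h5, hs⟩]
    congr 2
    zify [h4]
    exact ht.symm
  · rintro ⟨a, ha, h⟩
    split_ifs at h with hc
    · obtain ⟨h1, h2, h3⟩ := hc
      simp only [Option.some.injEq] at h
      have hb : (k * a + u.r) % g < g := Nat.mod_lt _ hg
      obtain ⟨b, hbe⟩ : ∃ b, b = (k * a + u.r) % g := ⟨_, rfl⟩
      obtain ⟨s, hse⟩ : ∃ s, s = (k * a + u.r) / g := ⟨_, rfl⟩
      rw [← hbe] at h h1 h2 h3 hb
      rw [← hse] at h
      have hdiv : g * s + b = k * a + u.r := by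
        rw [hse, hbe]
        exact Nat.div_add_mod _ _
      refine ⟨b, a, List.mem_range.1 ha, hb, h3, ?_, ?_, ?_, a + u.l * g - k * b, s, h.symm, ?_, ?_⟩
      · unfold Nat.ModEq
        rw [hbe, Nat.mod_mod]
      · zify at h1
        linarith
      · zify at h2
        linarith
      · zify at hdiv
        linarith [mul_comm (g : ℤ) s]
      · push_cast [h1]
        ring

/-! ### The two graphs -/

/-- the ten nodes of the first graph -/
def L₁ : Fin 10 → Node :=
  ![.start, .ord 193 313, .ord 388 148, .ord 13 373, .ord 298 298, .ord 148 148, .ord 148 388,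
    .ord 373 13, .ord 313 193, .ord 0 0]

/-- the ten nodes of the second graph -/
def L₂ : Fin 10 → Node :=
  ![.start, .ord 150 213, .ord 231 0, .ord 33 187, .ord 12 131, .ord 131 12, .ord 187 33,
    .ord 0 231, .ord 213 150, .ord 0 0]

/-- the common adjacency relation -/
def M (i j : Fin 10) : Bool :=
  (i, j) ∈ ([(0, 1), (1, 2), (1, 3), (2, 4), (3, 5), (4, 6), (5, 7), (6, 8), (7, 8), (8, 9), (8, 1),
    (9, 9), (9, 1)] : List (Fin 10 × Fin 10))

theorem adj₁ : ∀ i j : Fin 10, L₁ j ∈ outs 761 401 (L₁ i) ↔ M i j = true := by decide +kernel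

theorem adj₂ : ∀ i j : Fin 10, L₂ j ∈ outs 846 265 (L₂ i) ↔ M i j = true := by decide +kernel

theorem closed₁ : ∀ i : Fin 10, ∀ v ∈ outs 761 401 (L₁ i), ∃ j, L₁ j = v := by decide +kernel

theorem closed₂ : ∀ i : Fin 10, ∀ v ∈ outs 846 265 (L₂ i), (∃ j, L₂ j = v) ∨ v = .ord 198 44 := by
  decide +kernel

theorem dead : outs 846 265 (.ord 198 44) = [] := by decide +kernel

theorem inj₁ : Function.Injective L₁ := by decide +kernel

theorem inj₂ : Function.Injective L₂ := by decide +kernel

theorem fwd : ∀ i : Fin 10, i ≠ 9 → ∃ j, i < j ∧ M i j = true := by decide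

theorem bwd : ∀ j : Fin 10, j ≠ 0 → ∃ i, i < j ∧ M i j = true := by decide

section general

variable {g k : ℕ} (hg : 0 < g) (L : Fin 10 → Node) (h0 : L 0 = .start) (h9 : L 9 = .ord 0 0)
  (hadj : ∀ i j : Fin 10, L j ∈ outs g k (L i) ↔ M i j = true)

include hg h0 hadj in
lemma reach_L : ∀ (n : ℕ) (i : Fin 10), (i : ℕ) = n → Reach g k (L i) := by
  intro n
  induction n using Nat.strong_induction_on with
  | _ n ih =>
    intro i hi
    by_cases h : i = 0
    · rw [h, h0]
      exact Relation.ReflTransGen.refl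
    · obtain ⟨j, hj, hM⟩ := bwd i h
      refine Relation.ReflTransGen.tail (ih j (by omega) j rfl) ?_
      rw [step_iff g k hg]
      exact (hadj _ _).2 hM

include hg h9 hadj in
lemma to_zero : ∀ (n : ℕ) (i : Fin 10), 9 - (i : ℕ) = n →
    Relation.ReflTransGen (Step g k) (L i) (.ord 0 0) := by
  intro n
  induction n using Nat.strong_induction_on with
  | _ n ih =>
    intro i hi
    by_cases h : i = 9
    · rw [h, h9]
    · obtain ⟨j, hj, hM⟩ := fwd i h
      refine Relation.ReflTransGen.head ?_ (ih (9 - (j : ℕ)) (by omega) j rfl)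
      rw [step_iff g k hg]
      exact (hadj _ _).2 hM

/-- the equivalence of `Fin 10` with the nodes of the Young graph -/
theorem equiv_of (hinj : Function.Injective L)
    (hmem : ∀ u, Reach g k u → (∃ p, Pivot g k p ∧ Relation.ReflTransGen (Step g k) u p) →
      ∃ j, L j = u) (hg : 0 < g) (h0 : L 0 = .start) (h9 : L 9 = .ord 0 0)
    (hadj : ∀ i j : Fin 10, L j ∈ outs g k (L i) ↔ M i j = true) :
    ∃ e : Fin 10 ≃ YoungNode g k, ∀ i, (e i).1 = L i := by
  have hL : ∀ i, Reach g k (L i) ∧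
      ∃ p, Pivot g k p ∧ Relation.ReflTransGen (Step g k) (L i) p := fun i =>
    ⟨reach_L hg L h0 hadj _ i rfl, .ord 0 0, Or.inl ⟨0, rfl⟩, to_zero hg L h9 hadj _ i rfl⟩
  refine ⟨Equiv.ofBijective (fun i => ⟨L i, hL i⟩) ⟨fun i j h => ?_, ?_⟩, fun i => rfl⟩
  · exact hinj (congrArg Subtype.val h)
  · rintro ⟨u, h1, h2⟩
    obtain ⟨j, hj⟩ := hmem u h1 h2
    exact ⟨j, Subtype.ext hj⟩

end general

theorem mem₁ (u : Node) (hu : Reach 761 401 u) : ∃ j, L₁ j = u := by
  induction hu with
  | refl => exact ⟨0, rfl⟩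
  | tail _ h ih =>
    obtain ⟨j, rfl⟩ := ih
    rw [step_iff _ _ (by norm_num)] at h
    exact closed₁ j _ h

theorem mem₂' (u : Node) (hu : Reach 846 265 u) : (∃ j, L₂ j = u) ∨ u = .ord 198 44 := by
  induction hu with
  | refl => exact Or.inl ⟨0, rfl⟩
  | tail _ h ih =>
    rw [step_iff _ _ (by norm_num)] at h
    rcases ih with ⟨j, rfl⟩ | rfl
    · exact closed₂ j _ h
    · rw [dead] at h
      exact absurd h List.not_mem_nil

theorem no_step (v : Node) : ¬ Step 846 265 (.ord 198 44) v := by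
  rw [step_iff _ _ (by norm_num), dead]
  exact List.not_mem_nil

theorem mem₂ (u : Node) (hu : Reach 846 265 u)
    (hp : ∃ p, Pivot 846 265 p ∧ Relation.ReflTransGen (Step 846 265) u p) : ∃ j, L₂ j = u := by
  rcases mem₂' u hu with h | rfl
  · exact h
  · exfalso
    obtain ⟨p, hp1, hp2⟩ := hp
    have h3 : p = .ord 198 44 := by
      rcases Relation.ReflTransGen.cases_head hp2 with h | ⟨c, h, -⟩
      · exact h.symm
      · exact absurd h (no_step c)
    subst h3
    rcases hp1 with ⟨r, hr⟩ | ⟨r, hr, -⟩ | ⟨r', r, -, -, h⟩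
    · simp only [Node.ord.injEq] at hr
      omega
    · simp only [Node.ord.injEq] at hr
      omega
    · exact no_step _ h

/-- the only even pivot node of the second graph is `[0,0]` -/
theorem even₂ : ∀ j : Fin 10, (L₂ j).l = (L₂ j).r → j = 0 ∨ j = 9 := by decide +kernel

theorem main : OnlyDigraphsIsomorphic 761 401 846 265 := by
  obtain ⟨e₁, he₁⟩ := equiv_of (g := 761) (k := 401) L₁ inj₁ (fun u hu _ => mem₁ u hu)
    (by norm_num) rfl rfl adj₁
  obtain ⟨e₂, he₂⟩ := equiv_of (g := 846) (k := 265) L₂ inj₂ mem₂ (by norm_num) rfl rfl adj₂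
  refine ⟨⟨.ord 298 298, ?_, Or.inl ⟨298, rfl⟩, by simp⟩,
    ⟨.ord 213 150, ?_, Or.inr (Or.inr ⟨213, 150, by norm_num, rfl, ?_⟩), by simp⟩,
    ⟨e₁.symm.trans e₂, fun u v => ?_⟩, ?_⟩
  · exact reach_L (by norm_num) L₁ rfl adj₁ _ 4 rfl
  · exact reach_L (by norm_num) L₂ rfl adj₂ _ 8 rfl
  · rw [step_iff _ _ (by norm_num)]
    exact (adj₂ 8 1).2 rfl
  · obtain ⟨i, rfl⟩ := e₁.surjective u
    obtain ⟨j, rfl⟩ := e₁.surjective v
    rw [Equiv.trans_apply, Equiv.trans_apply, Equiv.symm_apply_apply, Equiv.symm_apply_apply,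
      he₁, he₁, he₂, he₂, step_iff _ _ (by norm_num), step_iff _ _ (by norm_num), adj₁, adj₂]
  · rintro ⟨e, -, h, -⟩
    have key : ∀ i : Fin 10, EvenPivot (L₁ i) → e (e₁ i) = e₂ 9 := by
      intro i hi
      have h1 := (h (e₁ i)).1 (by rw [he₁]; exact hi)
      obtain ⟨j, hj⟩ := e₂.surjective (e (e₁ i))
      rw [← hj, he₂] at h1
      obtain ⟨r, hr⟩ := h1
      have h2 := even₂ j (by rw [hr]; rfl)
      rcases h2 with rfl | rfl
      · exact absurd hr (by simp [L₂])
      · exact hj.symm
    have h4 := key 4 ⟨298, rfl⟩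
    have h5 := key 5 ⟨148, rfl⟩
    have h6 := e₁.injective (e.injective (h4.trans h5.symm))
    exact absurd h6 (by decide)

/-- There are two pairs whose Young graphs exist, have isomorphic underlying directed graphs and are
not isomorphic as Young graphs. -/
theorem result : OnlyDigraphsIsomorphic 761 401 846 265 ∧
    ∃ g k g' k' : ℕ, 3 ≤ g ∧ 2 ≤ k ∧ k < g ∧ 3 ≤ g' ∧ 2 ≤ k' ∧ k' < g' ∧ (g, k) ≠ (g', k') ∧
      OnlyDigraphsIsomorphic g k g' k' :=
  ⟨main, 761, 401, 846, 265, by norm_num, by norm_num, by norm_num, by norm_num, by norm_num,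
    by norm_num, by simp, main⟩

end Pool.Agent.Results.MP_5fcb94_co.SameDigraphDifferentPivots
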